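import Pool.Agent.Q98.HG6

/-!
# Universal disposition does not imply homogeneity (MP_f735f2_an)

For `κ = ℵ₀`, where `𝔇_{<κ}` is the class of the finite-dimensional spaces, there is a Banach space of
universal disposition for `𝔇_{<κ}` which is not homogeneous with respect to `𝔇_{<κ}`. The space is
built over `Z = c_0(ℝ)` by free one-point extensions of finite-dimensional subspaces, as a space of
functions on a product `T₀ × [0,1]^Code` (see `Pool/Agent/Q98/HG1.lean` to `HG6.lean`). Countably many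
functionals separate its points modulo `Z`, so an isometry which maps a unit vector `e_0` of `Z` to the
free vector `y` maps some `e_γ`, `γ ≠ 0`, into `Z`; but `‖e_γ + e_0‖ = 1` and `‖w + y‖ = ‖w‖ + 1` for
`w ∈ Z`.
-/

set_option autoImplicit false

namespace Pool.Agent.Results.MP_f735f2_an.DispositionWithoutHomogeneity

open Cardinal

/-- the least cardinality of a dense subset -/
noncomputable def density (A : Type) [TopologicalSpace A] : Cardinal.{0} :=
  sInf {c | ∃ s : Set A, Dense s ∧ #s = c}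

/-- `A` belongs to `𝔇_{<κ}`: the Banach spaces of density less than `κ`; for `κ = ℵ₀` the
finite-dimensional spaces. -/
def InClass (κ : Cardinal.{0}) (A : Type) [NormedAddCommGroup A] [NormedSpace ℝ A] : Prop :=
  (κ = ℵ₀ ∧ FiniteDimensional ℝ A) ∨ (κ ≠ ℵ₀ ∧ CompleteSpace A ∧ density A < κ)

/-- `X` is of universal disposition for `𝔇_{<κ}`. -/
def UniversalDisposition (κ : Cardinal.{0}) (X : Type) [NormedAddCommGroup X] [NormedSpace ℝ X] :
    Prop :=
  ∀ (A B : Type) [NormedAddCommGroup A] [NormedSpace ℝ A] [NormedAddCommGroup B]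
    [NormedSpace ℝ B], InClass κ A → InClass κ B → ∀ (u : A →ₗᵢ[ℝ] X) (i : A →ₗᵢ[ℝ] B),
    ∃ w : B →ₗᵢ[ℝ] X, ∀ a, w (i a) = u a

/-- `X` is homogeneous with respect to `𝔇_{<κ}`. -/
def Homogeneous (κ : Cardinal.{0}) (X : Type) [NormedAddCommGroup X] [NormedSpace ℝ X] : Prop :=
  ∀ (E F : Submodule ℝ X), IsClosed (E : Set X) → IsClosed (F : Set X) → InClass κ E →
    InClass κ F → ∀ h : E ≃ₗᵢ[ℝ] F, ∃ U : X ≃ₗᵢ[ℝ] X, ∀ e : E, U e = h e

/-- **Universal disposition for `𝔇_{<κ}` does not imply homogeneity with respect to `𝔇_{<κ}`**: the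
statement of the question is false, and it fails for `κ = ℵ₀`. -/
theorem result :
    (¬ ∀ κ : Cardinal.{0}, ℵ₀ ≤ κ → ∀ (X : Type) [NormedAddCommGroup X] [NormedSpace ℝ X]
      [CompleteSpace X], UniversalDisposition κ X → Homogeneous κ X) ∧
    ∃ (X : Type) (_ : NormedAddCommGroup X) (_ : NormedSpace ℝ X),
      CompleteSpace X ∧ UniversalDisposition ℵ₀ X ∧ ¬ Homogeneous ℵ₀ X := by
  have key : UniversalDisposition ℵ₀ Q98.HG.Xs ∧ ¬ Homogeneous ℵ₀ Q98.HG.Xs := by
    constructor
    · intro A B _ _ _ _ hA hB u i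
      have hB' : FiniteDimensional ℝ B := by
        rcases hB with ⟨_, h⟩ | ⟨h, _⟩
        · exact h
        · exact absurd rfl h
      let j : A ≃ₗᵢ[ℝ] LinearMap.range i.toLinearMap := i.equivRange
      obtain ⟨w, hw⟩ := Q98.HG.universal_disposition (LinearMap.range i.toLinearMap)
        (u.comp j.symm.toLinearIsometry)
      refine ⟨w, fun a => ?_⟩
      have h1 := hw (j a)
      have h2 : (u.comp j.symm.toLinearIsometry) (j a) = u a := by
        show u (j.symm (j a)) = u a
        rw [j.symm_apply_apply]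
      rw [h2] at h1
      exact h1
    · intro hh
      obtain ⟨E, F, h, h1, h2, h3⟩ := Q98.HG.not_homogeneous
      obtain ⟨U, hU⟩ := hh E F E.closed_of_finiteDimensional F.closed_of_finiteDimensional
        (Or.inl ⟨rfl, h1⟩) (Or.inl ⟨rfl, h2⟩) h
      exact h3 U.toLinearIsometry hU
  refine ⟨fun hall => ?_, Q98.HG.Xs, inferInstance, inferInstance, inferInstance, key⟩
  exact key.2 (hall ℵ₀ le_rfl Q98.HG.Xs key.1)

end Pool.Agent.Results.MP_f735f2_an.DispositionWithoutHomogeneity
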